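import Pool.Agent.U72.PIN.Dom

set_option autoImplicit false

/-!
# Invariance under computable involutions and under truth-table equivalence

`W r X` is the set c.e. in `X` with index `r`, `J X` is the jump of `X`, `le Y X` is Turing
reducibility `Y ≤_T X` (Mathlib's), `ch P` is the characteristic function of `P`
(`Pool/Agent/H639/LU/Defs.lean`). `Post r z` says that `W_r` solves Post's problem on the cone above
`z`: `X <_T W_r^X` and `X' ≰_T W_r^X` for all `X ≥_T z` (`Pool/Agent/N584/PI/Glb.lean`).
`TTle Y X` is truth-table reducibility: `Y(n)` is a computable function of `n` and of the first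
`u(n)` digits of `X`, with `u` computable (`Pool/Agent/U72/PIN/Main.lean`). `Dominated X` says that
each function whose graph is Turing reducible to `X` is bounded by a computable function, so
that `X` is of hyperimmune-free degree (`Pool/Agent/U72/PIN/Dom.lean`).

For each cone: there is a solution to Post's problem on the cone with `W^(X ∘ τ) ≤_T W^X` for
all computable involutions `τ` of `ω` (with no uniformity) if and only if there is a solution on the
cone which is invariant under truth-table equivalence. Such a truth-table invariant solution is
invariant under Turing equivalence at all computably dominated oracles, and `Z ↦ W^(Z')` is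
degree invariant, strictly between the jump and the double jump.

The proof shows: if `X` and `Y` are truth-table equivalent, then the sets of the codes of the clopen
sets which contain `X`, or `Y`, with infinitely many copies, are related by four computable
involutions.
-/

namespace Pool.Agent.Results.MP_57825d_lc.InvolutionsTruthTable

open Nat.Partrec (Code)
open Pool.Agent.H639.LU Pool.Agent.N584.PI Pool.Agent.U72.PIN

theorem result (z₀ : ℕ → Bool) :
    ((∃ r : Code, Post r z₀ ∧ ∀ τ : ℕ → ℕ, Computable τ → Function.Involutive τ →
        ∀ X, le z₀ X → le (ch (W r (X ∘ τ))) (ch (W r X))) ↔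
      ∃ s : Code, Post s z₀ ∧
        ∀ X Y, le z₀ X → TTle X Y → TTle Y X → le (ch (W s Y)) (ch (W s X))) ∧
    ∀ s : Code, Post s z₀ →
      (∀ X Y, le z₀ X → TTle X Y → TTle Y X → le (ch (W s Y)) (ch (W s X))) →
      (∀ X Y, le z₀ X → Dominated X → le X Y → le Y X → le (ch (W s Y)) (ch (W s X))) ∧
      (∀ Z, le z₀ Z → le (ch (J Z)) (ch (W s (ch (J Z)))) ∧
        ¬ le (ch (W s (ch (J Z)))) (ch (J Z)) ∧
        ¬ le (ch (J (ch (J Z)))) (ch (W s (ch (J Z))))) ∧
      ∀ Z Z', le z₀ Z → le Z Z' → le Z' Z →
        le (ch (W s (ch (J Z')))) (ch (W s (ch (J Z)))) :=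
  ⟨part_iff z₀, fun _ hs h => ⟨part3 h, (part4 hs h).1, (part4 hs h).2⟩⟩

end Pool.Agent.Results.MP_57825d_lc.InvolutionsTruthTable
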