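import Pool.Agent.U72.PIN.Three2

set_option autoImplicit false

/-!
# Solutions to Post's problem and three computable involutions

`W r X` is the set c.e. in `X` with index `r`, `J X` is the jump of `X`, `le Y X` is Turing
reducibility `Y ≤_T X` (Mathlib's), `ch P` is the characteristic function of `P`, and `Red c X Y`
says that the program `c` reduces `Y` to `X` (`Pool/Agent/H639/LU/Defs.lean`). `Post r z` says that
`W_r` solves Post's problem on the cone above `z`: `X <_T W_r^X` and `X' ≰_T W_r^X` for all
`X ≥_T z` (`Pool/Agent/N584/PI/Glb.lean`). An involution is a map `τ : ω → ω` with `τ (τ n) = n` for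
all `n`; it acts on the oracles by `X ↦ X ∘ τ`.

There are three computable involutions `ρ₁`, `ρ₂`, `β` such that no solution to Post's problem on a
cone is uniformly invariant under them: there are no programs `a₁`, `a₂` and no finite set `B` of
programs such that, on a cone, `a₁` reduces `W^(X ∘ ρ₁)` to `W^X`, `a₂` reduces `W^(X ∘ ρ₂)` to
`W^X`, and some member of `B` reduces `W^(X ∘ β)` to `W^X`.

The theorem `ComputablePermutations` of this folder has this for two computable permutations (of
infinite order); for one involution there is an invariant solution (`LocallyFiniteActions`).

Proof. Let `hat X` be the set of all codes of clopen sets which contain `X`, with infinitely many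
copies. If `X` and `Y` are truth-table equivalent, the code `l` for `Y` is the code `f l` for `X`,
and the code `l` for `X` is the code `g l` for `Y`. Turn every second copy of the question
`l` for `X` into a question for `Y`: it is the element `0` of a two-sided infinite chain, whose
negative elements are unused copies of `l` and whose positive elements are unused copies of `f l`;
the shift of all the chains is a product of two involutions (reflections), both
computable from `f`. In the same way, two involutions turn every second copy of the
questions for `Y` into questions for `X`. So `hat Y` is `hat X` after four involutions. The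
involution `β` contains all these involutions, for the equivalences of the game of
`ComputablePermutations`, in its columns, and `ρ₁`, `ρ₂` are reflections of the columns whose
product moves each column to each other one.
-/

namespace Pool.Agent.Results.MP_57825d_lc.ThreeInvolutions

open Nat.Partrec (Code)
open Pool.Agent.H639.LU Pool.Agent.N584.PI Pool.Agent.U72.PIN

theorem result :
    ∃ ρ₁ ρ₂ β : ℕ → ℕ, (Computable ρ₁ ∧ Function.Involutive ρ₁) ∧
      (Computable ρ₂ ∧ Function.Involutive ρ₂) ∧ (Computable β ∧ Function.Involutive β) ∧
      ∀ (r : Code) (z₀ : ℕ → Bool), Post r z₀ →
        ¬ ∃ (z : ℕ → Bool) (a₁ a₂ : Code) (B : Finset Code), ∀ X : ℕ → Bool, le z X →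
          Red a₁ (ch (W r X)) (ch (W r (X ∘ ρ₁))) ∧ Red a₂ (ch (W r X)) (ch (W r (X ∘ ρ₂))) ∧
          ∃ b ∈ B, Red b (ch (W r X)) (ch (W r (X ∘ β))) :=
  t_THREE

end Pool.Agent.Results.MP_57825d_lc.ThreeInvolutions
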