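import Pool.Agent.U35.ZV.Port

set_option autoImplicit false

/-!
# Solutions to Post's problem which are invariant under a truth-table reduction with two ports

`TLe` (Turing reducibility of sets, given by their characteristic sequences, from Mathlib's
`TuringReducible`) is defined in `Pool/Agent/Helper227/Defs.lean`; `pre X n` (the initial segment of
length `n` of `X`) in `Pool/Agent/Helper227/Use.lean`; `WE X e` (the `e`-th set computably enumerable
relative to `X`) and `jump X` (the Turing jump of `X`) in `Pool/Agent/Helper227/RD/Jump.lean`;
`chr S` (the characteristic sequence of `S`) in `Pool/Agent/H548R2/Post/Main.lean`; `cs b X` (the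
sequence with first digit `b` which is followed by `X`, written `bX` here) in
`Pool/Agent/U35/ZV/Port.lean`.

A truth-table reduction `P` is given by a computable `δ : ℕ → List Bool → Bool` and a computable
bound `u : ℕ → ℕ` on the use: `P(Z)` is the sequence `n ↦ δ n (pre Z (u n))`. For each truth-table
reduction `P` there is one index `e` which solves Post's problem for all oracles `X` (and `W_e^X` is
low over `X`), such that `W_e^X ≡_T W_e^Y` whenever `P(bX) = cY` and `P(cY) = bX` for some digits
`b`, `c`; and so for all `X`, `Y` which are connected by a finite chain of such steps. So each
oracle `X` has two ports `0X` and `1X`, and `P` links ports of oracles; the components of this graph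
are cycles and finite or infinite paths. This contains two special cases.

* With `P(0X) = 1 f(X)` and `P(1X) = 0 g(X)`: for every two truth-table reductions `f`, `g` there is
  a solution `e` such that `W_e^X ≡_T W_e^Y` whenever `Y = f(X)` and `X = g(Y)`.
* With `P(0X) = 0 f(X)` and `P(1X) = 1 g(X)`: for every two truth-table reductions `f`, `g` there is
  a solution `e` such that `W_e^X ≡_T W_e^Y` whenever `Y = f(X)` and `X = f(Y)`, or `Y = g(X)` and
  `X = g(Y)`; that is, for each of the two the same reduction is used in both directions.

By `FlipAndOnePair` of this folder the question is the same question for three reductions which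
are used in both directions, with Turing reductions in place of truth-table reductions: the change
of the first digit, and two for the one pair of programs.

Proof. `X` is coded by the sequence of the ports which are reached from `0X`, indexed by the
integers, in both directions: the next port is the other port of the oracle to which `P` leads.
A link of `X` and `Y` becomes a shift or a reflection of the sequences, so the infinite dihedral
group acts. The shift generates a normal subgroup of index two. For the action of the shift there
are (`Pool/Agent/U35/ZA`) classes `C(S)` of sequences, at each level `n` and each stage: for each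
`n` and `S` the class of each point in it is the same finite set from some stage on, and the
classes of `S` and of its shift agree at almost all levels `n`, from a stage on which is computable
from `S` and `n`. The construction uses the classes of the points `S` which have the same pair of
classes `C(S)`, `C(R S)`, up to the order, where `R` is the reflection
(`Pool/Agent/U35/ZV/VC.lean`). The operators at the points of a class act in the same way on the
witnesses of number `n`, with the restraints of all the points of the class; this is a finite
injury construction.
-/

namespace Pool.Agent.Results.MP_57825d_lc.TwoPorts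

open Pool.Agent.Helper227 Pool.Agent.H548R2.Post Pool.Agent.U35.ZA Pool.Agent.U35.ZV

/-- For each truth-table reduction `P`, given by `(δ, u)`, there is an index `e` such that
`X <_T W_e^X <_T X'` and `(W_e^X)' ≤_T X'` for all `X`, and `W_e^X ≡_T W_e^Y` for all `X`, `Y` related
by the equivalence relation generated by the pairs `X`, `Y` such that `P(bX) = cY` and `P(cY) = bX`
for some digits `b`, `c`. -/
theorem result (δ : ℕ → List Bool → Bool) (u : ℕ → ℕ) (hδ : Computable₂ δ) (hu : Computable u) :
    ∃ e : ℕ,
      (∀ X : ℕ → Bool, TLe X (chr (WE X e)) ∧ ¬ TLe (chr (WE X e)) X ∧
        TLe (chr (WE X e)) (jump X) ∧ ¬ TLe (jump X) (chr (WE X e)) ∧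
        TLe (jump (chr (WE X e))) (jump X)) ∧
      ∀ X Y : ℕ → Bool,
        Relation.EqvGen (fun X Y => ∃ b c : Bool,
          (∀ n, cs c Y n = δ n (pre (cs b X) (u n))) ∧
          ∀ n, cs b X n = δ n (pre (cs c Y) (u n))) X Y →
        TLe (chr (WE X e)) (chr (WE Y e)) ∧ TLe (chr (WE Y e)) (chr (WE X e)) := by
  obtain ⟨e, he, hinv⟩ := main_two (P := fun Z n => δ n (pre Z (u n)))
    ⟨δ, u, hδ, hu, fun _ _ => rfl⟩
  refine ⟨e, he, fun X Y h => ?_⟩
  induction h with
  | rel X Y h =>
    obtain ⟨b, c, h1, h2⟩ := h
    exact hinv X Y b c (funext h1) (funext h2)
  | refl X => exact ⟨TuringReducible.refl _, TuringReducible.refl _⟩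
  | symm X Y _ ih => exact ⟨ih.2, ih.1⟩
  | trans X Y Z _ _ ih1 ih2 =>
    exact ⟨TuringReducible.trans ih1.1 ih2.1, TuringReducible.trans ih2.2 ih1.2⟩

end Pool.Agent.Results.MP_57825d_lc.TwoPorts
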