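import Pool.Agent.U35.ZV.Grp
import Pool.Agent.U35.ZA.Pair

set_option autoImplicit false

/-!
# Solutions to Post's problem which are invariant under a virtually cyclic group

`TLe` (Turing reducibility of sets, given by their characteristic sequences, from Mathlib's
`TuringReducible`) is defined in `Pool/Agent/Helper227/Defs.lean`; `pre X n` (the initial segment of
length `n` of `X`) in `Pool/Agent/Helper227/Use.lean`; `WE X e` (the `e`-th set computably enumerable
relative to `X`) and `jump X` (the Turing jump of `X`) in `Pool/Agent/Helper227/RD/Jump.lean`;
`chr S` (the characteristic sequence of `S`) in `Pool/Agent/H548R2/Post/Main.lean`.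

Let the group `G` act on the Cantor space `ℕ → Bool` such that each element of `G` acts by a
truth-table reduction, that is by `X ↦ (n ↦ δ n (pre X (u n)))` for a computable `δ` and a computable
bound `u` on the use (for instance by a computable permutation of `ω`), and let `t` be an element of
`G` such that the subgroup generated by `t` has finite index in `G`. Then there is one index `e`
which solves Post's problem for all oracles `X` (and `W_e^X` is low over `X`), such that
`W_e^X ≡_T W_e^(xX)` for all `X` and all `x` in `G`. For example, `G` may be the group generated by
two involutions, which is a (finite or infinite) dihedral group; so for every two computable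
permutations `π`, `ρ` of `ω` of order two there is a solution `e` such that
`W_e^X ≡_T W_e^(X ∘ π) ≡_T W_e^(X ∘ ρ)` for all `X`.

Proof. We may assume that the cyclic subgroup is normal; each `x` in `G` commutes with its generator
`c` or inverts it, and `G` is the union of the cosets of finitely many representatives `r_j`. For
the action of `c` there are (`Pool/Agent/U35/ZA`) classes `C(X)` of points, at each level `n` and each
stage `s`: for each `n` and `X` the class of each point in it is the same finite set from some stage
on, and the classes of `X` and `cX` agree at almost all levels `n`, from a stage on which can be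
computed from `X` and `n`. In the present construction the class of `X` consists of the points `Y`
for which the classes `C(r_j Y)` are the same as the classes `C(r_j X)`, up to the order
(approximated with initial segments of length `s` of the points). Modulo powers of `c` the points
`r_j x X` are the points `r_i X`, so `X` and `xX` have the same class at almost all levels. The
operators at the points of a class act in the same way on the witnesses of number `n`, with the
restraints of all the points of the class. This is a finite injury construction.
-/

namespace Pool.Agent.Results.MP_57825d_lc.VirtuallyCyclicGroups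

open Pool.Agent.Helper227 Pool.Agent.H548R2.Post Pool.Agent.U35.ZA Pool.Agent.U35.ZV

/-- Let the group `G` act on the Cantor space by truth-table reductions, and let the subgroup
generated by `t` have finite index in `G`. There is an index `e` such that `X <_T W_e^X <_T X'` and
`(W_e^X)' ≤_T X'` for all `X`, and `W_e^X ≡_T W_e^(xX)` for all `X` and all `x` in `G`. -/
theorem result (G : Type*) [Group G] [MulAction G (ℕ → Bool)] (t : G)
    (ht : (Subgroup.zpowers t).FiniteIndex)
    (hG : ∀ x : G, ∃ (δ : ℕ → List Bool → Bool) (u : ℕ → ℕ), Computable₂ δ ∧ Computable u ∧
      ∀ (X : ℕ → Bool) (n : ℕ), (x • X) n = δ n (pre X (u n))) :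
    ∃ e : ℕ,
      (∀ X : ℕ → Bool, TLe X (chr (WE X e)) ∧ ¬ TLe (chr (WE X e)) X ∧
        TLe (chr (WE X e)) (jump X) ∧ ¬ TLe (jump X) (chr (WE X e)) ∧
        TLe (jump (chr (WE X e))) (jump X)) ∧
      ∀ (x : G) (X : ℕ → Bool),
        TLe (chr (WE X e)) (chr (WE (x • X) e)) ∧ TLe (chr (WE (x • X) e)) (chr (WE X e)) := by
  obtain ⟨e, he, hinv⟩ := main_grp t ht fun x =>
    TTm.cf (φ := fun X : ℕ → Bool => x • X) (hG x)
  exact ⟨e, he, hinv⟩

end Pool.Agent.Results.MP_57825d_lc.VirtuallyCyclicGroups
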